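import Pool.Agent.Work.MP_db9399_xq.PrepQ
import Pool.Agent.Work.MP_db9399_sx_helper1.FINX

/-! # MP_db9399, exception (iv), spots: FINQ, VMIX and FIN after the services (helper1) -/

set_option autoImplicit false

namespace Pool.Agent.Work.MP_db9399_xq.helper1

open Finset Classical
open Pool.Agent.Work.MP_db9399_all (nb)
open Pool.Agent.Work.MP_db9399_dn (IsMat Tot)
open Pool.Agent.Work.MP_db9399_bg (HPre)
open Pool.Agent.Work.MP_db9399_sl (InS Same Gout Gss Gin Gex Out Vert)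
open Pool.Agent.Work.MP_db9399_sv (Cor Mis slo ms FE)
open Pool.Agent.Work.MP_db9399_sw (shs sms wt wl od ac avl SHH Gxh Grh Lgt)
open Pool.Agent.Work.MP_db9399_sx
open Pool.Agent.Work.MP_db9399_sx.helper1 (out_mono vert_mono out_of F0S card_F0S fst_FE two_UH
  avl_loss)

universe u

/-- **FINQ** -/
theorem stmt_FINQ (hVMIX : MP_db9399_sw.Stmt_VMIX.{u}) (hFIN : MP_db9399_sl.Stmt_FIN.{u}) :
    Stmt_FINQ.{u} := by
  obtain ⟨δF, π, θF, dF, hδF, hπ, hπ3, hθF, hF⟩ := hFIN
  obtain ⟨δ1, θv, hδ1, hθv, hV⟩ := hVMIX (min δF (1 / 1000)) π (lt_min hδF (by norm_num))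
    (min_le_right _ _) hπ hπ3
  obtain ⟨θ, hθd⟩ : ∃ θ : ℝ, θ = min (min θF θv) (1 / 100) := ⟨_, rfl⟩
  have hθ0 : 0 < θ := by
    rw [hθd]
    exact lt_min (lt_min hθF hθv) (by norm_num)
  have hθ1 : θ ≤ θF := by rw [hθd]; exact (min_le_left _ _).trans (min_le_left _ _)
  have hθ2 : θ ≤ θv := by rw [hθd]; exact (min_le_left _ _).trans (min_le_right _ _)
  have hθ3 : θ ≤ 1 / 100 := by rw [hθd]; exact min_le_right _ _
  have hm : 0 < min δ1 δF := lt_min hδ1 hδF
  refine ⟨π, min δ1 δF / 2, θ, hπ, hπ3, by positivity, hθ0, ?_⟩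
  intro x hx hxθ
  obtain ⟨η, dV, hη, hV'⟩ := hV x hx (hxθ.trans hθ2)
  refine ⟨η, max (max dF dV) (max ⌈10 ^ 9 / x⌉₊ (max ⌈1 / η⌉₊ 1)), hη, ?_⟩
  intro V _ k δ0 θ' ε2 ε s δ' G EH d Ys UH Hs c0 tu cc t E K0 C p a Z μ
    Fy Mt pn F0 t' E' t'' E'' T hd hs hδ'x hδ'δ hε1 P M Cr hTE hTY hpar
  have hdF : dF ≤ d := by omega
  have hdV : dV ≤ d := by omega
  have hdL : ⌈10 ^ 9 / x⌉₊ ≤ d := by omega
  have hdη : ⌈1 / η⌉₊ ≤ d := by omega
  have hd1 : 1 ≤ d := by omega
  have hdη' : 1 ≤ η * d := by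
    have h1 : 1 / η ≤ d := (Nat.le_ceil _).trans (by exact_mod_cast hdη)
    rw [div_le_iff₀ hη] at h1
    linarith
  have hd0 : (0 : ℝ) ≤ d := Nat.cast_nonneg _
  have hd1' : (1 : ℝ) ≤ d := by exact_mod_cast hd1
  have hxd : 10 ^ 9 * ((1 : ℝ) * 1) ≤ x * d := by
    have h1 : 10 ^ 9 / x ≤ (d : ℝ) := (Nat.le_ceil _).trans (by exact_mod_cast hdL)
    rw [div_le_iff₀ hx] at h1
    linarith
  have hxy : 10 ^ 9 * (1 : ℝ) ≤ x * (10 ^ 9 / x) := by
    rw [mul_div_cancel₀ _ hx.ne']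
    norm_num
  have gr := P.grp
  have hshs : ∀ Y ∈ shs d Ys, Y ∈ Ys := fun Y hY => (mem_filter.mp hY).1
  have hYpos : ∀ Y ∈ Ys, (0 : ℝ) < Y.card := by
    intro Y hY
    have h1 := gr.low Y hY
    have h2 : (0 : ℝ) < (1 - θ) * d := by
      have : (0 : ℝ) < 1 - θ := by linarith
      positivity
    linarith
  -- the cardinality of `Fy`
  have hFy2 : ∀ Y ∈ shs d Ys, (Fy Y).card ≤ 2 := by
    intro Y hY
    have hYY := hshs Y hY
    have h1 := P.uh Y hY
    have h2 : (∑ v ∈ Y \ Hs, ((nb G v).filter (fun y => y ∉ Y ∧ y ∈ UH)).card) ≤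
        2 * Y.card := by
      calc (∑ v ∈ Y \ Hs, ((nb G v).filter (fun y => y ∉ Y ∧ y ∈ UH)).card) ≤
            ∑ v ∈ Y \ Hs, 2 := by
            apply sum_le_sum
            intro v _
            refine le_trans (card_le_card ?_) (two_UH gr.pre v)
            intro w hw
            rw [mem_filter] at hw ⊢
            exact ⟨hw.1, hw.2.2⟩
        _ = (Y \ Hs).card * 2 := by rw [sum_const, smul_eq_mul]
        _ ≤ 2 * Y.card := by
            have := card_le_card (sdiff_subset : Y \ Hs ⊆ Y)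
            omega
    have h3 : ((∑ v ∈ Y \ Hs, ((nb G v).filter (fun y => y ∉ Y ∧ y ∈ UH)).card : ℕ) : ℝ) ≤
        2 * Y.card := by exact_mod_cast h2
    have h4 : ((Fy Y).card : ℝ) * (1 - ε) ≤ 2 :=
      le_of_mul_le_mul_right (h1.trans h3) (hYpos Y hYY)
    have h5 : ((Fy Y).card : ℝ) * (9 / 10) ≤ 2 := by
      have : ((Fy Y).card : ℝ) * (9 / 10) ≤ ((Fy Y).card : ℝ) * (1 - ε) :=
        mul_le_mul_of_nonneg_left (by linarith) (Nat.cast_nonneg _)
      linarith
    have h6 : ((Fy Y).card : ℝ) < 3 := by linarith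
    have h7 : (Fy Y).card < 3 := by exact_mod_cast h6
    omega
  have hFyu : ∀ Y ∈ shs d Ys, ((Fy Y).card : ℝ) ≤ 10 * η * d := by
    intro Y hY
    have h1 : ((Fy Y).card : ℝ) ≤ 2 := by exact_mod_cast hFy2 Y hY
    have h2 : 10 * η * d = 10 * (η * d) := by ring
    rw [h2]
    linarith
  have hOut := out_of M.out Cr hTE hTY
  have hSHH : SHH x η θv 1 (10 ^ 9 / x) 1 1 G EH d Ys ∅ UH ∅ Hs c0 cc E'' (F0S K0 F0 E'') K0
      Fy Mt pn :=
    { deg := gr.deg
      dis := gr.dis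
      low := fun Y hY => le_trans (mul_le_mul_of_nonneg_right (by linarith) hd0) (gr.low Y hY)
      inn := fun Y hY v hv =>
        le_trans (mul_le_mul_of_nonneg_right (by linarith) hd0) (gr.din Y hY v hv)
      sum := gr.sum
      uh2 := gr.uh2
      F0K := by
        intro v hv hvs
        unfold F0S
        exact union_subset (M.F0K v hv hvs) inter_subset_right
      F0d := fun v hv hvs => card_F0S Cr gr.pre M.F0n hv hvs
      F0E := fun v _ _ => subset_union_right
      F0c := fun v hv hvs h => mem_union_left _ (Cr.F0c v hv hvs h)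
      FyK := P.FyK
      Fyc := P.Fyc
      Fyu := hFyu
      par := by
        intro Y hY
        refine (hpar Y hY).trans ((card_le_card ?_).trans (Nat.le_add_left _ _))
        intro b hb
        rw [mem_filter, mem_sdiff] at hb ⊢
        refine ⟨hb.1, ?_⟩
        have h1 : Y.filter (fun v => b ∉ MP_db9399_sw.fst UH (F0S K0 F0 E'') E'' v) =
            Y.filter (fun v => b ∉ FE UH F0 E'' v) :=
          filter_congr (fun v _ => fst_FE hb.1.1 v)
        rw [h1]
        exact hb.2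
      mat := P.mat
      mta := fun v w h => by
        obtain ⟨h1, h2, h3⟩ := P.mta v w h
        exact ⟨h1, h2, h3, notMem_empty _⟩
      mtn := P.mtn
      pnu := by
        intro Y hY
        have h1 : (pn Y : ℝ) ≤ (Fy Y).card := by exact_mod_cast P.pnF Y hY
        exact h1.trans (hFyu Y hY)
      big := by
        intro Y hY _ b hb hbF hbU
        have h1 := P.big Y hY b hb hbF hbU
        have h2 := avl_loss (G := G) (Ys := Ys) (UH := UH) (c := cc) (E := E) (Y := Y) (b := b)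
          hTE
        have h3 : ((avl G Ys UH cc E Y b).card : ℝ) ≤ (avl G Ys UH cc E'' Y b).card +
            (Y.filter (fun v => b ∈ E' v ∧ b ∉ E v)).card + (Y ∩ T).card := by
          exact_mod_cast h2
        have h4 := M.ldn Y (hshs Y hY) b
        have h5 := hTY Y (hshs Y hY)
        have h6 : s * d ≤ x / 2 * d := mul_le_mul_of_nonneg_right hs hd0
        have h7 : δ' * d ≤ x / 2 * d := mul_le_mul_of_nonneg_right hδ'x hd0
        linarith
      sml := fun Y hY => absurd hY (notMem_empty _)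
      hsc := fun Y hY => absurd hY (notMem_empty _)
      gds := fun Y hY => absurd hY (notMem_empty _)
      gdd := fun v hv => absurd hv (notMem_empty _)
      gdi := fun v hv => absurd hv (notMem_empty _)
      gde := by
        intro Y hY
        have h1 : ∑ v ∈ Y, (nb (Gss G EH Ys) v ∩ ∅).card = 0 := by
          simp
        rw [h1]
        have h2 := (hYpos Y (hshs Y hY)).le
        simp only [Nat.cast_zero]
        positivity }
  obtain ⟨c', Z', F, hc', hZ', hVert⟩ := hV' 1 (10 ^ 9 / x) 1 1 G EH d Ys ∅ UH ∅ Hs c0 tu cc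
    t'' E'' (F0S K0 F0 E'') K0 C p a (Z ∪ T) Fy Mt pn hdV le_rfl le_rfl le_rfl hxy hxd gr.pre
    P.Cu (fun Y hY => (gr.upp Y hY).trans (mul_le_mul_of_nonneg_right (by linarith) hd0))
    (fun Y hY v hv => (gr.inn Y hY v hv).trans (mul_le_mul_of_nonneg_right hθ2 hd0))
    (out_mono hOut (by
      have := min_le_left δ1 δF
      linarith)) hSHH
  obtain ⟨t3, h1, h2, h3⟩ := hF G d k Ys UH c0 EH tu cc c' t'' E'' F K0 C p a (Z ∪ T) Z' hdF
    gr.deg gr.dis
    (fun Y hY => ⟨le_trans (mul_le_mul_of_nonneg_right (by linarith) hd0) (gr.low Y hY),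
      (gr.upp Y hY).trans (mul_le_mul_of_nonneg_right (by linarith) hd0)⟩)
    (fun Y hY v hv => le_trans (mul_le_mul_of_nonneg_right (by linarith) hd0)
      (gr.din Y hY v hv))
    (fun Y hY v hv => (gr.inn Y hY v hv).trans (mul_le_mul_of_nonneg_right hθ1 hd0)) gr.pre
    (out_mono hOut (by
      have := min_le_right δ1 δF
      linarith)) hc' hZ' (vert_mono hVert (min_le_left _ _))
  exact ⟨c', t3, h1, h2, h3⟩

end Pool.Agent.Work.MP_db9399_xq.helper1
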