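import Pool.Agent.Work.MP_db9399_xq.PrepQ
import Pool.Agent.Work.MP_db9399_sx_helper79.SITX
import Pool.Agent.Work.MP_db9399_sv_helper10.GEO

/-! # MP_db9399, exception (iv), spots: choice of the coins in the frame of `PrepQ` (helper1) -/

set_option autoImplicit false

namespace Pool.Agent.Work.MP_db9399_xq.helper1

open Finset Classical
open Pool.Agent.Work.MP_db9399_all (nb)
open Pool.Agent.Work.MP_db9399_bg (HPre)
open Pool.Agent.Work.MP_db9399_sl (InS Same Gout Gss Gin Gex Out)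
open Pool.Agent.Work.MP_db9399_sv (Cor Mis slo bt slL Bas Sit Vld Usl Cn kd qv qw qx al be)
open Pool.Agent.Work.MP_db9399_sv.helper10 (prs mem_prs card_prs card_prs_comm fi fi_mem fi_inj
  inS_of_sh not_UH not_EH gex_of_out usl_ssU ex_real two_UH)

universe u

section defs
variable {V : Type u} [Fintype V] {k : ℕ}

/-- the hubs in `UH` dominated by `Y` -/
noncomputable def hbq (δ1 : ℝ) (G : SimpleGraph V) (d : ℕ) (Ys Sh : Finset (Finset V))
    (UH Lt Y : Finset V) : Finset V :=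
  univ.filter (fun y => y ∈ UH ∧ ¬ InS Ys y ∧ δ1 * d < (bt G Sh Lt y : ℝ) ∧
    3 / 4 * (bt G Sh Lt y : ℝ) < ((nb G y ∩ (Y ∩ Lt)).card : ℝ))

/-- number of coins of kind 3 at the slot `(v, α)` -/
noncomputable def c3 (G EH : SimpleGraph V) (Ys Sh : Finset (Finset V)) (UH : Finset V)
    (K0 : Finset (Fin k)) (μ : V → Fin k) (t : V → V → Fin k) (E F0 : V → Finset (Fin k))
    (v : V) (α : Fin k) : ℕ :=
  (univ.filter (fun q : Cn V k => kd q = 3 ∧ qv q = v ∧ al q = α ∧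
    Vld G EH Ys Sh UH UH K0 μ t E F0 q)).card

/-- the permitted pairs -/
def pmq (ρ δ1 : ℝ) (G EH : SimpleGraph V) (d : ℕ) (Ys Sh : Finset (Finset V))
    (UH Lt : Finset V) (K0 : Finset (Fin k)) (μ : V → Fin k) (t : V → V → Fin k)
    (E F0 : V → Finset (Fin k)) (y v : V) : Prop :=
  y ∈ UH ∧ ¬ InS Ys y ∧ (∀ Y ∈ Sh, y ∉ hbq δ1 G d Ys Sh UH Lt Y) ∧ G.Adj y v ∧ InS Sh v ∧
    v ∈ Lt ∧ v ∉ UH ∧ ((bt G Sh Lt y : ℝ) ≤ δ1 * d ∨
      (c3 G EH Ys Sh UH K0 μ t E F0 v (t v y) : ℝ) < ρ * d)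

/-- the facts about the colours at the light vertices -/
structure QL (ε ε2 θl : ℝ) (G : SimpleGraph V) (d : ℕ) (Ys Sh : Finset (Finset V))
    (UH Lt : Finset V) (E : V → Finset (Fin k)) (μ : V → Fin k) (nd : Finset V → ℕ) : Prop where
  el : ∀ v, InS Sh v → v ∈ Lt → v ∉ UH → ((E v).card : ℝ) ≤ θl * d
  hub : ∀ y ∈ UH, ¬ InS Ys y → (((nb G y).filter (fun v => InS Ys v ∧ v ∉ UH ∧
    μ y ∈ E v)).card : ℝ) ≤ ε2 * d
  hst : ∀ Y ∈ Sh, ((∑ v ∈ (Y ∩ Lt) \ UH, ((nb G v).filter (fun y => y ∈ UH ∧ ¬ InS Ys y ∧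
    μ y ∈ E v)).card : ℕ) : ℝ) ≤ ε * Y.card
  two : ∀ Y ∈ Sh, nd Y ≤ 2
  uh : ∀ Y ∈ Sh, (nd Y : ℝ) * (1 - ε) * Y.card ≤
    ((∑ v ∈ Y ∩ Lt, ((nb G v).filter (fun y => y ∉ Y ∧ y ∈ UH)).card : ℕ) : ℝ)
  uh2 : ∀ Y ∈ Sh, (Y ∩ UH).card ≤ 2

variable {δ θ η ε ε2 θl δ1 ρ : ℝ} {G EH : SimpleGraph V} {d : ℕ}
  {Ys Sh : Finset (Finset V)} {UH Lt : Finset V} {c0 tu cc : V → Fin k} {t : V → V → Fin k}
  {E F0 : V → Finset (Fin k)} {K0 : Finset (Fin k)} {μ : V → Fin k} {nd : Finset V → ℕ}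
  {Ex : Finset V → Finset (Fin k)}

lemma adj_of_nb {y v : V} (h : v ∈ nb G y) : G.Adj y v := by
  unfold nb at h
  exact (mem_filter.1 h).2

lemma nb_of_adj {y v : V} (h : G.Adj y v) : v ∈ nb G y := by
  unfold nb
  exact mem_filter.2 ⟨mem_univ _, h⟩

lemma inj_out (hB : Bas δ θ η G EH d Ys Sh UH UH c0 tu cc t E F0 K0 μ nd Ex) {y : V}
    (hy : ¬ InS Ys y) (F : Finset (Fin k)) :
    ((nb G y).filter (fun x => t x y ∈ F)).card ≤ F.card := by
  refine card_le_card_of_injOn (fun x => t x y) ?_ ?_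
  · intro x hx
    exact mem_coe.2 (mem_filter.1 (mem_coe.1 hx)).2
  · intro x hx x' hx' h
    have h1 := adj_of_nb (mem_filter.1 (mem_coe.1 hx)).1
    have h2 := adj_of_nb (mem_filter.1 (mem_coe.1 hx')).1
    have h3 : t y x = t y x' := by
      rw [hB.cor.ts y x, hB.cor.ts y x']
      exact h
    exact hB.cor.ti y (show x ∈ {w | (Gex G Ys).Adj y w ∨ EH.Adj y w} from
      Or.inl (gex_of_out h1.symm hy).symm) (show x' ∈ {w | (Gex G Ys).Adj y w ∨ EH.Adj y w} from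
      Or.inl (gex_of_out h2.symm hy).symm) h3

lemma c3_ge (hB : Bas δ θ η G EH d Ys Sh UH UH c0 tu cc t E F0 K0 μ nd Ex) {Y : Finset V}
    (hY : Y ∈ Sh) {v y : V} (hv : v ∈ Y) (hvU : v ∉ UH) (hy : ¬ InS Ys y) (hvy : G.Adj v y)
    (S : Finset V) (hS : ∀ x ∈ S, G.Adj x y ∧ InS Sh x ∧ x ∉ Y ∧ x ∉ UH ∧ t v y ∉ E x ∧
      t x y ∉ E v) :
    S.card ≤ c3 G EH Ys Sh UH K0 μ t E F0 v (t v y) := by
  have hvS : InS Sh v := ⟨Y, hY, hv⟩
  have hvY := inS_of_sh hB hvS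
  have hα : t v y ∈ E v := hB.cor.Et v y hvY (Or.inl (gex_of_out hvy hy))
  refine card_le_card_of_injOn (fun x => ((3 : Fin 4), v, y, x, t v y, t x y)) ?_ ?_
  · intro x hx
    obtain ⟨hxy, hxS, hxY, hxU, h1, h2⟩ := hS x (mem_coe.1 hx)
    have hxYs := inS_of_sh hB hxS
    have hxE := not_EH hB hxYs hxU y
    have hβK : t x y ∈ K0 := hB.cor.tK x y (gex_of_out hxy hy) hxE
    have hsame : ¬ Same Ys v x := by
      rintro ⟨Y', hY', h3, h4⟩
      by_cases he : Y' = Y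
      · exact hxY (he ▸ h4)
      · exact disjoint_left.1 (hB.dis Y' hY' Y (hB.sh hY) he) h3 hv
    exact mem_coe.2 (mem_filter.2 ⟨mem_univ _, rfl, rfl, rfl, hvS, hvU, Or.inl hxU, hα, hβK, h2,
      Or.inr (Or.inr (Or.inr ⟨rfl, hy, hvy, not_EH hB hvY hvU y, rfl, hxS, hxy, hxE, rfl,
        h1, hsame⟩))⟩)
  · intro x _ x' _ h
    simp only [Prod.mk.injEq] at h
    exact h.2.2.2.1

/-- poor and rich hubs: kind 1 -/
lemma usl_one (hB : Bas δ θ η G EH d Ys Sh UH UH c0 tu cc t E F0 K0 μ nd Ex)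
    {v y : V} (hp : pmq ρ δ1 G EH d Ys Sh UH Lt K0 μ t E F0 y v) (hμ : μ y ∉ E v) :
    Usl ρ G EH d Ys Sh UH UH K0 μ t E F0 (pmq ρ δ1 G EH d Ys Sh UH Lt K0 μ t E F0)
      (v, t v y) := by
  obtain ⟨hyU, hy, hnd, hyv, hvS, hvL, hvU, hor⟩ := hp
  have hvY := inS_of_sh hB hvS
  have hα : t v y ∈ E v := hB.cor.Et v y hvY (Or.inl (gex_of_out hyv.symm hy))
  exact Or.inl ⟨((1 : Fin 4), v, y, v, t v y, μ y), rfl, rfl, rfl,
    ⟨hyU, hy, hnd, hyv, hvS, hvL, hvU, hor⟩, hvS, hvU, Or.inl hvU, hα, (hB.mis y hy).1, hμ,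
    Or.inr (Or.inl ⟨rfl, rfl, hy, hyv.symm, not_EH hB hvY hvU y, rfl, rfl⟩)⟩

lemma usl_three {v y : V} (Pm : V → V → Prop)
    (h : ρ * d ≤ (c3 G EH Ys Sh UH K0 μ t E F0 v (t v y) : ℝ)) :
    Usl ρ G EH d Ys Sh UH UH K0 μ t E F0 Pm (v, t v y) :=
  Or.inr ⟨3, by decide, h⟩

/-- the number of neighbours in a spot which are bad partners -/
lemma few_bad (hB : Bas δ θ η G EH d Ys Sh UH UH c0 tu cc t E F0 K0 μ nd Ex)
    (hQ : QL ε ε2 θl G d Ys Sh UH Lt E μ nd) {Y : Finset V} (hY : Y ∈ Sh) {v y : V}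
    (hv : v ∈ Y) (hvL : v ∈ Lt) (hvU : v ∉ UH) (hy : ¬ InS Ys y) (hvy : G.Adj v y)
    (M : Finset V) (hM : ∀ x ∈ M, G.Adj x y ∧ InS Sh x ∧ x ∉ Y) :
    (M.card : ℝ) ≤ (c3 G EH Ys Sh UH K0 μ t E F0 v (t v y) : ℝ) + 2 + θl * d +
      ((M.filter (fun x => x ∉ UH ∧ t v y ∈ E x)).card : ℝ) := by
  set S := M.filter (fun x => x ∉ UH ∧ t v y ∉ E x ∧ t x y ∉ E v) with hS
  have h1 : S.card ≤ c3 G EH Ys Sh UH K0 μ t E F0 v (t v y) := by
    refine c3_ge hB hY hv hvU hy hvy S ?_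
    intro x hx
    obtain ⟨hx1, hx2, hx3, hx4⟩ := mem_filter.1 hx
    obtain ⟨h5, h6, h7⟩ := hM x hx1
    exact ⟨h5, h6, h7, hx2, hx3, hx4⟩
  have h2 : M ⊆ S ∪ ((nb G y).filter (fun x => x ∈ UH) ∪
      ((nb G y).filter (fun x => t x y ∈ E v) ∪
        M.filter (fun x => x ∉ UH ∧ t v y ∈ E x))) := by
    intro x hx
    have hxy := nb_of_adj (hM x hx).1.symm
    rw [mem_union, mem_union, mem_union]
    by_cases c1 : x ∈ UH
    · exact Or.inr (Or.inl (mem_filter.2 ⟨hxy, c1⟩))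
    by_cases c2 : t x y ∈ E v
    · exact Or.inr (Or.inr (Or.inl (mem_filter.2 ⟨hxy, c2⟩)))
    by_cases c3 : t v y ∈ E x
    · exact Or.inr (Or.inr (Or.inr (mem_filter.2 ⟨hx, c1, c3⟩)))
    · exact Or.inl (mem_filter.2 ⟨hx, c1, c3, c2⟩)
  have h3 := two_UH hB.pre y
  have h4 := inj_out hB hy (E v)
  have h5 : M.card ≤ S.card + (2 + ((E v).card +
      (M.filter (fun x => x ∉ UH ∧ t v y ∈ E x)).card)) := by
    have e1 := (card_le_card h2).trans (card_union_le _ _)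
    have e2 := card_union_le ((nb G y).filter (fun x => x ∈ UH))
      ((nb G y).filter (fun x => t x y ∈ E v) ∪ M.filter (fun x => x ∉ UH ∧ t v y ∈ E x))
    have e3 := card_union_le ((nb G y).filter (fun x => t x y ∈ E v))
      (M.filter (fun x => x ∉ UH ∧ t v y ∈ E x))
    omega
  have h6 := hQ.el v ⟨Y, hY, hv⟩ hvL hvU
  have h7 : (M.card : ℝ) ≤ ((S.card + (2 + ((E v).card +
      (M.filter (fun x => x ∉ UH ∧ t v y ∈ E x)).card)) : ℕ) : ℝ) := by exact_mod_cast h5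
  push_cast at h7
  have h8 : (S.card : ℝ) ≤ (c3 G EH Ys Sh UH K0 μ t E F0 v (t v y) : ℝ) := by exact_mod_cast h1
  linarith

/-- `Pm` concerns few vertices at every hub -/
lemma pm_few (hB : Bas δ θ η G EH d Ys Sh UH UH c0 tu cc t E F0 K0 μ nd Ex)
    (hQ : QL ε ε2 θl G d Ys Sh UH Lt E μ nd) (hδ1 : 0 < δ1) (hρ : ρ + θl ≤ δ1 / 16)
    (hθl : θl ≤ δ1 * δ1 / 8) (hd : 32 ≤ δ1 * d) (hθl0 : 0 ≤ θl) (y : V) :
    ((univ.filter (fun v => pmq ρ δ1 G EH d Ys Sh UH Lt K0 μ t E F0 y v)).card : ℝ) ≤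
      δ1 * d := by
  have hd0 : (0 : ℝ) < d := by
    rcases Nat.eq_zero_or_pos d with h | h
    · rw [h] at hd
      norm_num at hd
    · exact_mod_cast h
  set B := univ.filter (fun v => pmq ρ δ1 G EH d Ys Sh UH Lt K0 μ t E F0 y v) with hBdef
  set N := (nb G y).filter (fun v => InS Sh v ∧ v ∈ Lt) with hN
  have hBN : B ⊆ N := by
    intro v hv
    obtain ⟨_, _, _, _, h1, h2, h3, _⟩ := mem_filter.1 hv
    exact mem_filter.2 ⟨nb_of_adj h1, h2, h3⟩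
  have hbt : (bt G Sh Lt y : ℝ) = N.card := rfl
  by_cases hpoor : (bt G Sh Lt y : ℝ) ≤ δ1 * d
  · refine le_trans ?_ hpoor
    rw [hbt]
    exact_mod_cast card_le_card hBN
  push Not at hpoor
  have hNd : (N.card : ℝ) ≤ d := by
    exact_mod_cast (card_le_card (filter_subset _ _)).trans (hB.deg y)
  -- every bad vertex has many partners with its colour
  have hkey : ∀ v ∈ B, δ1 / 8 * d ≤ ((N.filter (fun x => x ∉ UH ∧ t v y ∈ E x)).card : ℝ) := by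
    intro v hv
    obtain ⟨_, _, hyS, hnd, hyv, ⟨Y, hY, hvY⟩, hvL, hvU, hor⟩ := mem_filter.1 hv
    have hyU : y ∈ UH := by assumption
    have hc : (c3 G EH Ys Sh UH K0 μ t E F0 v (t v y) : ℝ) < ρ * d := by
      rcases hor with h | h
      · linarith
      · exact h
    have hdom : ((nb G y ∩ (Y ∩ Lt)).card : ℝ) ≤ 3 / 4 * (bt G Sh Lt y : ℝ) := by
      by_contra hcon
      push Not at hcon
      exact hnd Y hY (mem_filter.2 ⟨mem_univ _, hyU, hyS, hpoor, hcon⟩)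
    have h1 := few_bad hB hQ hY hvY hvL hvU hyS hyv.symm (N \ Y) (by
      intro x hx
      obtain ⟨hx1, hx2⟩ := mem_sdiff.1 hx
      obtain ⟨hx3, hx4, hx5⟩ := mem_filter.1 hx1
      exact ⟨(adj_of_nb hx3).symm, hx4, hx2⟩)
    have h2 : (N.card : ℝ) ≤ (N \ Y).card + (nb G y ∩ (Y ∩ Lt)).card := by
      have : N ⊆ (N \ Y) ∪ (nb G y ∩ (Y ∩ Lt)) := by
        intro x hx
        by_cases hxY : x ∈ Y
        · exact mem_union_right _ (mem_inter.2 ⟨(mem_filter.1 hx).1,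
            mem_inter.2 ⟨hxY, (mem_filter.1 hx).2.2⟩⟩)
        · exact mem_union_left _ (mem_sdiff.2 ⟨hx, hxY⟩)
      exact_mod_cast (card_le_card this).trans (card_union_le _ _)
    have h3 : (((N \ Y).filter (fun x => x ∉ UH ∧ t v y ∈ E x)).card : ℝ) ≤
        ((N.filter (fun x => x ∉ UH ∧ t v y ∈ E x)).card : ℝ) := by
      exact_mod_cast card_le_card (filter_subset_filter _ sdiff_subset)
    have h4 : (ρ + θl) * d ≤ δ1 / 16 * d := mul_le_mul_of_nonneg_right hρ hd0.le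
    rw [hbt] at hdom hpoor
    linarith
  -- double counting
  have hsum : (B.card : ℝ) * (δ1 / 8 * d) ≤ θl * d * d := by
    calc (B.card : ℝ) * (δ1 / 8 * d) = ∑ _v ∈ B, (δ1 / 8 * d) := by
          rw [sum_const, nsmul_eq_mul]
      _ ≤ ∑ v ∈ B, ((N.filter (fun x => x ∉ UH ∧ t v y ∈ E x)).card : ℝ) := sum_le_sum hkey
      _ = ∑ x ∈ N, ((B.filter (fun v => x ∉ UH ∧ t v y ∈ E x)).card : ℝ) := by
          have : ∑ v ∈ B, (N.filter (fun x => x ∉ UH ∧ t v y ∈ E x)).card =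
              ∑ x ∈ N, (B.filter (fun v => x ∉ UH ∧ t v y ∈ E x)).card := by
            simp only [card_filter]
            exact sum_comm
          exact_mod_cast this
      _ ≤ ∑ _x ∈ N, θl * d := by
          refine sum_le_sum fun x hx => ?_
          obtain ⟨_, hxS, hxL⟩ := mem_filter.1 hx
          by_cases hxU : x ∈ UH
          · have : B.filter (fun v => x ∉ UH ∧ t v y ∈ E x) = ∅ :=
              filter_eq_empty_iff.2 fun v _ h => h.1 hxU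
            rw [this]
            simp only [card_empty, Nat.cast_zero]
            positivity
          · refine le_trans ?_ (hQ.el x hxS hxL hxU)
            by_cases hyS : InS Ys y
            · have : B = ∅ := by
                refine filter_eq_empty_iff.2 fun v _ h => h.2.1 hyS
              rw [this]
              simp
            · have h5 : (B.filter (fun v => x ∉ UH ∧ t v y ∈ E x)).card ≤
                  ((nb G y).filter (fun v => t v y ∈ E x)).card := by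
                refine card_le_card fun v hv => ?_
                obtain ⟨hv1, hv2⟩ := mem_filter.1 hv
                exact mem_filter.2 ⟨(mem_filter.1 (hBN hv1)).1, hv2.2⟩
              exact_mod_cast h5.trans (inj_out hB hyS (E x))
      _ = N.card * (θl * d) := by rw [sum_const, nsmul_eq_mul]
      _ ≤ d * (θl * d) := mul_le_mul_of_nonneg_right hNd (by positivity)
      _ = θl * d * d := by ring
  have h6 : (B.card : ℝ) * (δ1 / 8 * d) ≤ (δ1 * d) * (δ1 / 8 * d) := by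
    calc (B.card : ℝ) * (δ1 / 8 * d) ≤ θl * d * d := hsum
      _ = θl * (d * d) := by ring
      _ ≤ (δ1 * δ1 / 8) * (d * d) := mul_le_mul_of_nonneg_right hθl (by positivity)
      _ = (δ1 * d) * (δ1 / 8 * d) := by ring
  exact le_of_mul_le_mul_right h6 (by positivity)

/-- dominated hubs -/
lemma hbq_good (hB : Bas δ θ η G EH d Ys Sh UH UH c0 tu cc t E F0 K0 μ nd Ex)
    (hQ : QL ε ε2 θl G d Ys Sh UH Lt E μ nd) (hρ : ρ + ε2 ≤ δ1 / 2) (hd1 : 8 ≤ δ1 * d)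
    {Y : Finset V} (hY : Y ∈ Sh) {y : V} (hy : y ∈ hbq δ1 G d Ys Sh UH Lt Y) :
    ρ * d ≤ ((Y.filter (fun v => v ∉ UH ∧ G.Adj v y ∧ ¬ EH.Adj v y ∧ μ y ∉ E v)).card : ℝ) := by
  obtain ⟨_, hyU, hyS, hyr, hyd⟩ := mem_filter.1 hy
  have hsub : nb G y ∩ (Y ∩ Lt) ⊆ (Y.filter (fun v => v ∉ UH ∧ G.Adj v y ∧ ¬ EH.Adj v y ∧
      μ y ∉ E v)) ∪ ((nb G y).filter (fun v => v ∈ UH) ∪
        (nb G y).filter (fun v => InS Ys v ∧ v ∉ UH ∧ μ y ∈ E v)) := by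
    intro v hv
    obtain ⟨hv1, hv20⟩ := mem_inter.1 hv
    obtain ⟨hv2, hvL⟩ := mem_inter.1 hv20
    have hyv := adj_of_nb hv1
    have hvY : InS Ys v := ⟨Y, hB.sh hY, hv2⟩
    rw [mem_union, mem_union]
    by_cases c1 : v ∈ UH
    · exact Or.inr (Or.inl (mem_filter.2 ⟨hv1, c1⟩))
    by_cases c2 : μ y ∈ E v
    · exact Or.inr (Or.inr (mem_filter.2 ⟨hv1, hvY, c1, c2⟩))
    · exact Or.inl (mem_filter.2 ⟨hv2, c1, hyv.symm, not_EH hB hvY c1 y, c2⟩)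
  have hc := (card_le_card hsub).trans (card_union_le _ _)
  have hc' := card_union_le ((nb G y).filter (fun v => v ∈ UH))
    ((nb G y).filter (fun v => InS Ys v ∧ v ∉ UH ∧ μ y ∈ E v))
  have h3 := two_UH hB.pre y
  have h4 := hQ.hub y hyU hyS
  have hc2 : ((nb G y ∩ (Y ∩ Lt)).card : ℝ) ≤ ((Y.filter (fun v => v ∉ UH ∧ G.Adj v y ∧
      ¬ EH.Adj v y ∧ μ y ∉ E v)).card : ℝ) + (2 +
      ((nb G y).filter (fun v => InS Ys v ∧ v ∉ UH ∧ μ y ∈ E v)).card) := by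
    have : (nb G y ∩ (Y ∩ Lt)).card ≤ (Y.filter (fun v => v ∉ UH ∧ G.Adj v y ∧
      ¬ EH.Adj v y ∧ μ y ∉ E v)).card + (2 +
      ((nb G y).filter (fun v => InS Ys v ∧ v ∉ UH ∧ μ y ∈ E v)).card) := by omega
    exact_mod_cast this
  have hd : (0 : ℝ) ≤ d := Nat.cast_nonneg d
  have h6 : (ρ + ε2) * d ≤ δ1 / 2 * d := mul_le_mul_of_nonneg_right hρ hd
  linarith

/-- the usable slots -/
lemma us_q (hB : Bas δ θ η G EH d Ys Sh UH UH c0 tu cc t E F0 K0 μ nd Ex)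
    (hQ : QL ε ε2 θl G d Ys Sh UH Lt E μ nd) (hθ : θ ≤ 1 / 100) (hρ2 : ρ ≤ 1 / 2)
    (hρ : ρ + 2 * δ + θl ≤ δ1 / 4) (hd1 : 8 ≤ δ1 * d) (hε0 : 0 ≤ ε) (hε : ε ≤ 1 / 10)
    (hδ0 : 0 < δ) (hδ : δ ≤ 1 / 1000) {Y : Finset V} (hY : Y ∈ Sh) (hYp : 100 ≤ Y.card)
    (hn : (hbq δ1 G d Ys Sh UH Lt Y).card < nd Y) :
    1 / 5 * ((nd Y : ℝ) - (hbq δ1 G d Ys Sh UH Lt Y).card) * Y.card ≤
      (((slo Y E).filter (fun s => s.2 ∉ Ex Y ∧ Usl ρ G EH d Ys Sh UH UH K0 μ t E F0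
      (pmq ρ δ1 G EH d Ys Sh UH Lt K0 μ t E F0) s)).card : ℝ) := by
  have hYs := hB.sh hY
  set Pm := pmq ρ δ1 G EH d Ys Sh UH Lt K0 μ t E F0 with hPm
  set U := (slo Y E).filter (fun s => s.2 ∉ Ex Y ∧ Usl ρ G EH d Ys Sh UH UH K0 μ t E F0
    Pm s) with hU
  set B0 := (slo Y E).filter (fun s => s.2 ∈ Ex Y) with hB0
  set H := hbq δ1 G d Ys Sh UH Lt Y with hH
  set A := prs G (Y ∩ Lt) (fun _ y => y ∉ Y ∧ y ∈ UH) with hA
  set A1 := prs G (Y ∩ UH) (fun _ y => y ∈ UH) with hA1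
  set A2 := prs G ((Y ∩ Lt) \ UH) (fun v y => y ∈ UH ∧ ¬ InS Ys y ∧ μ y ∈ E v) with hA2
  set D5 := prs G (Y ∩ Lt) (fun _ y => y ∈ H) with hD5
  set A0 := A.filter (fun p => p.1 ∉ UH ∧ p.2 ∉ H ∧ ¬ (¬ InS Ys p.2 ∧ μ p.2 ∈ E p.1)) with hA0
  have hcov : A ⊆ A0 ∪ (A1 ∪ (A2 ∪ D5)) := by
    intro p hp
    have h1 := mem_prs.1 hp
    rw [mem_union, mem_union, mem_union]
    by_cases h2 : p.1 ∈ UH
    · exact Or.inr (Or.inl (mem_prs.2 ⟨mem_inter.2 ⟨(mem_inter.1 h1.1).1, h2⟩, h1.2.1,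
        h1.2.2.2⟩))
    by_cases h3 : p.2 ∈ H
    · exact Or.inr (Or.inr (Or.inr (mem_prs.2 ⟨h1.1, h1.2.1, h3⟩)))
    by_cases h4 : ¬ InS Ys p.2 ∧ μ p.2 ∈ E p.1
    · exact Or.inr (Or.inr (Or.inl (mem_prs.2 ⟨mem_sdiff.2 ⟨h1.1, h2⟩, h1.2.1, h1.2.2.2,
        h4.1, h4.2⟩)))
    · exact Or.inl (mem_filter.2 ⟨hp, h2, h3, h4⟩)
  have hcard : A.card ≤ A0.card + (A1.card + (A2.card + D5.card)) := by
    have e1 := (card_le_card hcov).trans (card_union_le _ _)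
    have e2 := card_union_le A1 (A2 ∪ D5)
    have e3 := card_union_le A2 D5
    omega
  have hex : ∀ v y : V, v ∈ Y → y ∉ Y → G.Adj v y → (Gex G Ys).Adj v y := by
    intro v y hv hy h
    refine ⟨h, fun ⟨Y', hY', h1, h2⟩ => ?_⟩
    by_cases he : Y' = Y
    · exact hy (he ▸ h2)
    · exact disjoint_left.1 (hB.dis Y' hY' Y hYs he) h1 hv
  have hA0U : A0.card ≤ (U ∪ B0).card := by
    refine card_le_card_of_injOn (fi t) ?_ ?_
    · rintro ⟨v, y⟩ hp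
      have h1 := mem_filter.1 (mem_coe.1 hp)
      obtain ⟨hvYL, hvy, hyY, hyU⟩ := mem_prs.1 h1.1
      simp only at hvYL hvy hyY hyU
      obtain ⟨hv, hvL⟩ := mem_inter.1 hvYL
      obtain ⟨hvU, hyH, hst⟩ := h1.2
      simp only at hvU hyH hst
      have hvS : InS Sh v := ⟨Y, hY, hv⟩
      have hvY := inS_of_sh hB hvS
      have hs : fi t (v, y) ∈ slo Y E := fi_mem hB hYs hv (hex v y hv hyY hvy)
      by_cases hs0 : (fi t (v, y)).2 ∈ Ex Y
      · exact mem_coe.2 (mem_union_right _ (mem_filter.2 ⟨hs, hs0⟩))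
      refine mem_coe.2 (mem_union_left _ (mem_filter.2 ⟨hs, hs0, ?_⟩))
      change Usl ρ G EH d Ys Sh UH UH K0 μ t E F0 Pm (v, t v y)
      by_cases hyS : InS Ys y
      · exact usl_ssU hB hθ hρ2 _ hvS hvU (hB.cor.Et v y hvY (Or.inl (hex v y hv hyY hvy))) hyS
          hyU (hex v y hv hyY hvy) rfl
      have hμ : μ y ∉ E v := fun h => hst ⟨hyS, h⟩
      by_cases hgood : ρ * d ≤ (c3 G EH Ys Sh UH K0 μ t E F0 v (t v y) : ℝ)
      · exact usl_three _ hgood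
      push Not at hgood
      have hnd : ∀ Y' ∈ Sh, y ∉ hbq δ1 G d Ys Sh UH Lt Y' := by
        intro Y' hY' hy'
        have hne : Y' ≠ Y := by
          rintro rfl
          exact hyH hy'
        obtain ⟨_, _, _, hyr, hyd⟩ := mem_filter.1 hy'
        have h2 := few_bad hB hQ hY hv hvL hvU hyS hvy (nb G y ∩ (Y' ∩ Lt)) (by
          intro x hx
          obtain ⟨hx1, hx2⟩ := mem_inter.1 hx
          obtain ⟨hx3, hx4⟩ := mem_inter.1 hx2
          exact ⟨(adj_of_nb hx1).symm, ⟨Y', hY', hx3⟩, fun h =>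
            disjoint_left.1 (hB.dis Y' (hB.sh hY') Y hYs hne) hx3 h⟩)
        have h3 : (((nb G y ∩ (Y' ∩ Lt)).filter (fun x => x ∉ UH ∧ t v y ∈ E x)).card : ℝ) ≤
            δ * d := by
          refine le_trans ?_ (hB.ld Y' (hB.sh hY') (t v y))
          have : (nb G y ∩ (Y' ∩ Lt)).filter (fun x => x ∉ UH ∧ t v y ∈ E x) ⊆
              Y'.filter (fun x => t v y ∈ E x) := by
            intro x hx
            obtain ⟨hx1, hx2⟩ := mem_filter.1 hx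
            exact mem_filter.2 ⟨(mem_inter.1 (mem_inter.1 hx1).2).1, hx2.2⟩
          exact_mod_cast card_le_card this
        have hd0 : (0 : ℝ) ≤ d := Nat.cast_nonneg d
        have h4 : (ρ + 2 * δ + θl) * d ≤ δ1 / 4 * d := mul_le_mul_of_nonneg_right hρ hd0
        have h5 : 0 ≤ δ * d := by positivity
        linarith
      exact usl_one hB ⟨hyU, hyS, hnd, hvy.symm, hvS, hvL, hvU, Or.inr hgood⟩ hμ
    · intro p hp q hq h
      have h1 := mem_prs.1 (mem_filter.1 (mem_coe.1 hp)).1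
      have h2 := mem_prs.1 (mem_filter.1 (mem_coe.1 hq)).1
      exact fi_inj hB (hex _ _ (mem_inter.1 h1.1).1 h1.2.2.1 h1.2.1)
        (hex _ _ (mem_inter.1 h2.1).1 h2.2.2.1 h2.2.1) h
  have hUB := card_union_le U B0
  have hA1c : A1.card ≤ 4 := by
    rw [hA1, card_prs]
    have h2 : ∀ v ∈ Y ∩ UH, ((nb G v).filter (fun y => y ∈ UH)).card ≤ 2 :=
      fun v _ => two_UH hB.pre v
    calc _ = ∑ v ∈ Y ∩ UH, ((nb G v).filter (fun y => y ∈ UH)).card := by congr!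
      _ ≤ (Y ∩ UH).card • 2 := sum_le_card_nsmul _ _ _ h2
      _ = (Y ∩ UH).card * 2 := by rw [smul_eq_mul]
      _ ≤ 2 * 2 := Nat.mul_le_mul_right _ (hQ.uh2 Y hY)
  have hA2c : (A2.card : ℝ) ≤ ε * Y.card := by
    refine le_trans (le_of_eq ?_) (hQ.hst Y hY)
    rw [hA2, card_prs]
    congr!
  have hYp' : (100 : ℝ) ≤ Y.card := by exact_mod_cast hYp
  have hYp0 : (0 : ℝ) < Y.card := by linarith
  have hD5c : (D5.card : ℝ) ≤ (H.card : ℝ) * Y.card := by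
    have h1 := card_prs_comm G (Y ∩ Lt) H
    have h2 : (Y ∩ Lt).card ≤ Y.card := card_le_card inter_subset_left
    have h3 : D5.card ≤ H.card * Y.card := h1.trans (Nat.mul_le_mul_left _ h2)
    exact_mod_cast h3
  have hHn : (H.card : ℝ) + 1 ≤ nd Y := by exact_mod_cast hn
  have hAc : (nd Y : ℝ) * (1 - ε) * Y.card ≤ (A.card : ℝ) := by
    refine (hQ.uh Y hY).trans (le_of_eq ?_)
    rw [hA, card_prs]
    congr!
  have hb0 : (B0.card : ℝ) ≤ (nd Y + 4) * (2 * δ * Y.card) := ex_real hB hY hδ0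
  have h1 : (A.card : ℝ) ≤ (U.card : ℝ) + (B0.card + (4 + (A2.card + D5.card))) := by
    have : A.card ≤ U.card + (B0.card + (4 + (A2.card + D5.card))) := by omega
    exact_mod_cast this
  have h3 : (nd Y : ℝ) ≤ 2 := by exact_mod_cast hQ.two Y hY
  have hεY : 0 ≤ ε * Y.card := by positivity
  have h4 : (nd Y : ℝ) * (ε * Y.card) ≤ 2 * (ε * Y.card) :=
    mul_le_mul_of_nonneg_right h3 hεY
  have h5 : ε * Y.card ≤ 1 / 10 * Y.card := mul_le_mul_of_nonneg_right hε hYp0.le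
  have h6 : ((nd Y : ℝ) + 4) * (2 * δ * Y.card) ≤ 12 * (1 / 1000 * Y.card) := by
    calc ((nd Y : ℝ) + 4) * (2 * δ * Y.card) ≤ 6 * (2 * δ * Y.card) :=
          mul_le_mul_of_nonneg_right (by linarith) (by positivity)
      _ = 12 * (δ * Y.card) := by ring
      _ ≤ 12 * (1 / 1000 * Y.card) := by
          have := mul_le_mul_of_nonneg_right hδ hYp0.le
          linarith
  have h7 : (nd Y : ℝ) * (1 - ε) * Y.card = nd Y * Y.card - nd Y * (ε * Y.card) := by ring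
  rw [h7] at hAc
  have hgoal : ((nd Y : ℝ) - H.card) * Y.card = nd Y * Y.card - H.card * Y.card := by ring
  have h8 : 1 * (Y.card : ℝ) ≤ ((nd Y : ℝ) - H.card) * Y.card :=
    mul_le_mul_of_nonneg_right (by linarith) hYp0.le
  calc 1 / 5 * ((nd Y : ℝ) - H.card) * Y.card = 1 / 5 * (((nd Y : ℝ) - H.card) * Y.card) := by
        ring
    _ ≤ U.card := by
        rw [hgoal] at h8 ⊢
        linarith

end defs

/-- from `Bas` and `QL` to `Sit` -/
theorem geoq {V : Type u} [Fintype V] {k : ℕ} {δ θ η ε ε2 θl δ1 : ℝ} {G EH : SimpleGraph V}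
    {d : ℕ} {Ys Sh : Finset (Finset V)} {UH Lt : Finset V} {c0 tu cc : V → Fin k}
    {t : V → V → Fin k} {E F0 : V → Finset (Fin k)} {K0 : Finset (Fin k)} {μ : V → Fin k}
    {nd : Finset V → ℕ} {Ex : Finset V → Finset (Fin k)}
    (hB : Bas δ θ η G EH d Ys Sh UH UH c0 tu cc t E F0 K0 μ nd Ex)
    (hQ : QL ε ε2 θl G d Ys Sh UH Lt E μ nd) (hδ1 : 0 < δ1) (hθ : θ ≤ 1 / 100)
    (hε0 : 0 ≤ ε) (hε : ε ≤ 1 / 10) (hδ0 : 0 < δ) (hδ : δ ≤ 1 / 1000) (hδ2 : δ ≤ δ1 / 64)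
    (hθl0 : 0 ≤ θl) (hθl : θl ≤ δ1 / 64) (hθl2 : θl ≤ δ1 * δ1 / 8) (hε2 : ε2 ≤ δ1 / 16)
    (hd : 32 ≤ δ1 * d) (hd2 : 200 ≤ d) :
    ∃ (nL nD : Finset V → ℕ) (Pm : V → V → Prop) (Hb : Finset V → Finset V),
      Sit (1 / 5) δ1 (min (δ1 / 32) (1 / 2)) δ θ η G EH d Ys Sh UH UH c0 tu cc t E F0 K0 μ Pm
        nL nD Ex Hb ∧ ∀ Y ∈ Sh, nd Y = nL Y + nD Y := by
  set ρ : ℝ := min (δ1 / 32) (1 / 2) with hρ
  have hρ1 : ρ ≤ δ1 / 32 := min_le_left _ _
  have hρ2 : ρ ≤ 1 / 2 := min_le_right _ _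
  have hYpos : ∀ Y ∈ Sh, 100 ≤ Y.card := by
    intro Y hY
    have := hB.low Y hY
    omega
  have hsum : ∀ Y : Finset V, nd Y = (nd Y - min (nd Y) (hbq δ1 G d Ys Sh UH Lt Y).card) +
      min (nd Y) (hbq δ1 G d Ys Sh UH Lt Y).card := by
    intro Y
    have := min_le_left (nd Y) (hbq δ1 G d Ys Sh UH Lt Y).card
    omega
  refine ⟨fun Y => nd Y - min (nd Y) (hbq δ1 G d Ys Sh UH Lt Y).card,
    fun Y => min (nd Y) (hbq δ1 G d Ys Sh UH Lt Y).card,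
    pmq ρ δ1 G EH d Ys Sh UH Lt K0 μ t E F0, hbq δ1 G d Ys Sh UH Lt, ?_, fun Y _ => hsum Y⟩
  refine
    { K0c := hB.K0c
      deg := hB.deg
      EG := hB.pre.EG
      upp := hB.upp
      low := hB.low
      dis := hB.dis
      sh := hB.sh
      UX := hB.UX
      cor := hB.cor
      Ec := hB.Ec
      Es := hB.Es
      ld := hB.ld
      mis := hB.mis
      pm := ?_
      ndd := ?_
      Exc := ?_
      us := ?_
      Hc := ?_
      Hd := ?_
      Hy := ?_ }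
  · intro y
    exact pm_few hB hQ hδ1 (by linarith) hθl2 hd hθl0 y
  · intro Y hY
    have h1 := hB.ndd Y hY
    have h2 : ((nd Y : ℕ) : ℝ) = ((nd Y - min (nd Y) (hbq δ1 G d Ys Sh UH Lt Y).card : ℕ) : ℝ) +
        ((min (nd Y) (hbq δ1 G d Ys Sh UH Lt Y).card : ℕ) : ℝ) := by
      exact_mod_cast hsum Y
    rw [h2] at h1
    exact h1
  · intro Y hY
    have h1 := hB.Exc Y hY
    have h2 := hsum Y
    omega
  · intro Y hY
    rcases Nat.lt_or_ge (hbq δ1 G d Ys Sh UH Lt Y).card (nd Y) with hn | hn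
    · have h1 : ((nd Y - min (nd Y) (hbq δ1 G d Ys Sh UH Lt Y).card : ℕ) : ℝ) =
          (nd Y : ℝ) - (hbq δ1 G d Ys Sh UH Lt Y).card := by
        rw [min_eq_right hn.le, Nat.cast_sub hn.le]
      rw [h1]
      exact us_q hB hQ hθ hρ2 (by linarith) (by linarith) hε0 hε hδ0 hδ hY (hYpos Y hY) hn
    · have h1 : nd Y - min (nd Y) (hbq δ1 G d Ys Sh UH Lt Y).card = 0 := by
        rw [min_eq_left hn]; omega
      rw [h1]
      simp
  · intro Y _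
    exact min_le_right _ _
  · intro Y hY Y' hY' hne
    rw [disjoint_left]
    intro y h1 h2
    obtain ⟨_, _, _, h3, h4⟩ := mem_filter.1 h1
    obtain ⟨_, _, _, _, h5⟩ := mem_filter.1 h2
    have h6 : (nb G y ∩ (Y ∩ Lt)).card + (nb G y ∩ (Y' ∩ Lt)).card ≤ bt G Sh Lt y := by
      have hdis : Disjoint (nb G y ∩ (Y ∩ Lt)) (nb G y ∩ (Y' ∩ Lt)) :=
        Disjoint.mono (inter_subset_right.trans inter_subset_left)
          (inter_subset_right.trans inter_subset_left)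
          (hB.dis Y (hB.sh hY) Y' (hB.sh hY') hne)
      rw [← card_union_of_disjoint hdis]
      refine card_le_card fun v hv => ?_
      rcases mem_union.1 hv with h | h
      · exact mem_filter.2 ⟨(mem_inter.1 h).1, ⟨Y, hY, (mem_inter.1 (mem_inter.1 h).2).1⟩,
          (mem_inter.1 (mem_inter.1 h).2).2⟩
      · exact mem_filter.2 ⟨(mem_inter.1 h).1, ⟨Y', hY', (mem_inter.1 (mem_inter.1 h).2).1⟩,
          (mem_inter.1 (mem_inter.1 h).2).2⟩
    have h7 : ((nb G y ∩ (Y ∩ Lt)).card : ℝ) + (nb G y ∩ (Y' ∩ Lt)).card ≤ bt G Sh Lt y := by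
      exact_mod_cast h6
    linarith
  · intro Y hY y hy
    obtain ⟨_, _, h1, h2, h3⟩ := mem_filter.1 hy
    exact ⟨h1, fun v h => h.2.2.1 Y hY hy, hbq_good hB hQ (by linarith) (by linarith) hY hy⟩

end Pool.Agent.Work.MP_db9399_xq.helper1
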