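import Pool.Agent.Work.MP_db9399_xq.PrepQ

/-! # MP_db9399, exception (iv), spots: KQ from ENDQ and PRQ (helper1) -/

set_option autoImplicit false

namespace Pool.Agent.Work.MP_db9399_xq.helper1

open Finset Classical
open Pool.Agent.Work.MP_db9399_all (nb)
open Pool.Agent.Work.MP_db9399_sl (InS Same Out)
open Pool.Agent.Work.MP_db9399_sw (shs Gxh Grh)
open Pool.Agent.Work.MP_db9399_sx (Grp)

universe u

section
variable {V : Type u} [Fintype V] {k : ℕ}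

theorem out_monoQ {δ δ' π : ℝ} {G Gx Gr EH : SimpleGraph V} {d : ℕ} {Ys : Finset (Finset V)}
    {UH : Finset V} {c0 tu c : V → Fin k} {t : V → V → Fin k} {E : V → Finset (Fin k)}
    {K0 : Finset (Fin k)} {C : Fin 3 → Finset (Fin k)} {p : V → Fin 3} {a : V → Bool}
    {Z : Finset V} (h : Out δ π G Gx Gr EH d Ys UH c0 tu c t E K0 C p a Z) (hδ : δ ≤ δ') :
    Out δ' π G Gx Gr EH d Ys UH c0 tu c t E K0 C p a Z where
  K0c := h.K0c
  cU := h.cU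
  cK := h.cK
  cc := h.cc
  ts := h.ts
  te := h.te
  tK := h.tK
  tc := h.tc
  ti := h.ti
  Et := h.Et
  EK := h.EK
  EU := h.EU
  Ed := h.Ed
  CK := h.CK
  Cc := h.Cc
  Cd := h.Cd
  UZ := h.UZ
  ZY Y hY := (h.ZY Y hY).trans (mul_le_mul_of_nonneg_right hδ (Nat.cast_nonneg _))
  av := h.av
  cell Y hY i l := (h.cell Y hY i l).trans (mul_le_mul_of_nonneg_right hδ (Nat.cast_nonneg _))
  ld Y hY b := (h.ld Y hY b).trans (mul_le_mul_of_nonneg_right hδ (Nat.cast_nonneg _))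

/-- a larger `η` -/
theorem grp_monoQ {θ θ' η η' : ℝ} {G EH : SimpleGraph V} {d : ℕ} {Ys : Finset (Finset V)}
    {UH Hs : Finset V} {c0 tu : V → Fin k} (h : Grp θ θ' η G EH d Ys UH Hs c0 tu)
    (hη : η ≤ η') : Grp θ θ' η' G EH d Ys UH Hs c0 tu where
  deg := h.deg
  pre := h.pre
  dis := h.dis
  low := h.low
  upp := h.upp
  din := h.din
  inn := h.inn
  sum Y hY := (h.sum Y hY).trans (mul_le_mul_of_nonneg_right
    (mul_le_mul_of_nonneg_right hη (Nat.cast_nonneg _)) (Nat.cast_nonneg _))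
  uh2 := h.uh2
  hsS := h.hsS
  lig := h.lig
  hsc := h.hsc

end

/-- **KQ** -/
theorem stmt_KQ (hE : Stmt_ENDQ.{u}) (hP : Stmt_PRQ.{u}) : Stmt_KQ.{u} := by
  obtain ⟨π, θ, ε2, ε, hπ, hπ3, hθ0, hθ1, hε2, hε, hε1, hE⟩ := hE
  refine ⟨π, θ, ε2, ε, hπ, hπ3, hθ0, hθ1, hε2, hε, ?_⟩
  intro ζ hζ hζ1
  obtain ⟨x, hx, hxθ, δ1, ε3, η1, d1, hδ1, hε3, hη1, hP⟩ := hP ζ ε θ hζ hζ1 hε hε1 hθ0 hθ1
  obtain ⟨δ2, θ', η2, d2, hδ2, hθ', hη2, hE⟩ := hE x hx hxθ
  refine ⟨min δ1 δ2, ε3, θ', min η1 η2, max d1 d2, lt_min hδ1 hδ2, hε3, hθ', lt_min hη1 hη2, ?_⟩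
  intro V _ k τ G EH d Ys UH Hs c0 tu cc t E K0 C p a Z μ hd hG hHs hO hCu hOw hmis hhub hhst
  have hHs' : ∀ Y ∈ Ys, ((Y ∩ Hs).card : ℝ) ≤ η1 * Y.card := fun Y hY =>
    (hHs Y hY).trans (mul_le_mul_of_nonneg_right (min_le_left _ _) (Nat.cast_nonneg _))
  obtain ⟨Fy, Mt, pn, h1, h2, h3, h4, h5, h6, h7, h8⟩ := hP π θ' τ G EH d Ys UH Hs c0 tu cc t E
    K0 C p a Z (le_trans (le_max_left _ _) hd) (grp_monoQ hG (min_le_left _ _))
    (out_monoQ hO (min_le_left _ _)) hHs' hOw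
  exact hE G EH d Ys UH Hs c0 tu cc t E K0 C p a Z μ Fy Mt pn (le_trans (le_max_right _ _) hd)
    { grp := grp_monoQ hG (min_le_right _ _)
      out := out_monoQ hO (min_le_right _ _)
      Cu := hCu
      mis := hmis
      hub := hhub
      hst := hhst
      FyK := h1
      uh := h2
      big := h3
      Fyc := h4
      pnF := h5
      mat := h6
      mta := h7
      mtn := h8 }

end Pool.Agent.Work.MP_db9399_xq.helper1
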