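import Pool.Agent.Work.MP_db9399_xq_helper1.GEOQ

/-! # MP_db9399, exception (iv), spots: SITQ, from `PrepQ` and `MidQ` to `Sit` (helper1) -/

set_option autoImplicit false

namespace Pool.Agent.Work.MP_db9399_xq.helper1

open Finset Classical
open Pool.Agent.Work.MP_db9399_all (nb)
open Pool.Agent.Work.MP_db9399_dn (IsMat)
open Pool.Agent.Work.MP_db9399_bg (HPre)
open Pool.Agent.Work.MP_db9399_sl (InS Same Gss Gin Gex Out)
open Pool.Agent.Work.MP_db9399_sv (Cor Mis slo GsL GxL bt slL Bas Sit)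
open Pool.Agent.Work.MP_db9399_sw (shs sms wt wl od Gxh Grh Lgt)
open Pool.Agent.Work.MP_db9399_sx
open Pool.Agent.Work.MP_db9399_sx.helper79 (slo_card' inter_Lts nb_inter_le gin_sub gin_eq two_uh
  nb_bot lin_big sum_uh shs_sub)
open Pool.Agent.Work.MP_db9399_sv.helper10 (gex_of_out)

universe u

section facts
variable {V : Type u} [Fintype V] {k : ℕ} {δ' π θ θ' ε2 ε x η δ s : ℝ}
  {G EH : SimpleGraph V} {d : ℕ} {Ys : Finset (Finset V)} {UH Hs : Finset V}
  {c0 tu cc : V → Fin k} {t : V → V → Fin k} {E : V → Finset (Fin k)} {K0 : Finset (Fin k)}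
  {C : Fin 3 → Finset (Fin k)} {p : V → Fin 3} {a : V → Bool} {Z : Finset V}
  {μ : V → Fin k} {Fy : Finset V → Finset (Fin k)} {Mt : SimpleGraph V} {pn : Finset V → ℕ}
  {F0 : V → Finset (Fin k)} {t' : V → V → Fin k} {E' : V → Finset (Fin k)}

/-- the colours `t'` on the edges with an end outside the spots -/
theorem mid_tq (P : PrepQ δ' π θ θ' ε2 ε x η G EH d Ys UH Hs c0 tu cc t E K0 C p a Z μ Fy Mt pn)
    (M : MidQ δ π s G EH d Ys UH Hs c0 tu cc t E F0 K0 C p a Z μ t' E')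
    (y w : V) (h : G.Adj y w) (hy : ¬ InS Ys y) : t' y w = t y w := by
  rw [M.out.ts y w, M.tx w y h.symm hy, P.out.ts w y]

theorem mid_corq (M : MidQ δ π s G EH d Ys UH Hs c0 tu cc t E F0 K0 C p a Z μ t' E') :
    Cor G EH d Ys UH c0 tu cc t' E' F0 K0 where
  ts := M.out.ts
  te := M.out.te
  tK := M.out.tK
  tc := M.out.tc
  ti := M.out.ti
  Et := M.out.Et
  EK := M.out.EK
  EU := M.out.EU
  Ed := by
    intro v hv
    have h1 := M.out.Ed v hv
    rw [nb_bot] at h1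
    omega
  cU := M.out.cU
  F0d := M.F0d
  F0c := M.F0c

/-- the number of colours at a spot vertex -/
theorem E_uppq
    (P : PrepQ δ' π θ θ' ε2 ε x η G EH d Ys UH Hs c0 tu cc t E K0 C p a Z μ Fy Mt pn)
    (M : MidQ δ π s G EH d Ys UH Hs c0 tu cc t E F0 K0 C p a Z μ t' E')
    {Y : Finset V} (hY : Y ∈ Ys) {v : V} (hv : v ∈ Y) :
    ((E' v).card : ℝ) ≤ (d : ℝ) - (nb G v ∩ Y).card + (if v ∈ UH then 1 else 0) := by
  have h1 := (mid_corq M).Ed v ⟨Y, hY, hv⟩
  have h2 : ((E' v).card : ℝ) + (nb (Gin G EH Ys) v).card = d := by exact_mod_cast h1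
  by_cases hU : v ∈ UH
  · rw [if_pos hU]
    have h3 := nb_inter_le G EH P.grp.pre.mat hY hv
    have h4 : ((nb G v ∩ Y).card : ℝ) ≤ (nb (Gin G EH Ys) v).card + 1 := by exact_mod_cast h3
    linarith
  · rw [if_neg hU]
    have h3 := gin_eq G EH P.grp.dis hY hv (fun w hw => hU (P.grp.pre.EU v w hw))
    rw [h3] at h2
    linarith

/-- at most two demands -/
theorem fy_twoq
    (P : PrepQ δ' π θ θ' ε2 ε x η G EH d Ys UH Hs c0 tu cc t E K0 C p a Z μ Fy Mt pn)
    (hε : ε ≤ 1 / 10) {Y : Finset V} (hY : Y ∈ shs d Ys) (h0 : 0 < Y.card) :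
    (Fy Y).card ≤ 2 := by
  have h1 := P.uh Y hY
  have h2 : ((∑ v ∈ Y \ Hs, ((nb G v).filter (fun y => y ∉ Y ∧ y ∈ UH)).card : ℕ) : ℝ) ≤
      2 * Y.card := by
    have h3 : ∑ v ∈ Y \ Hs, ((nb G v).filter (fun y => y ∉ Y ∧ y ∈ UH)).card ≤
        ∑ v ∈ Y \ Hs, 2 := by
      refine sum_le_sum fun v _ => le_trans (card_le_card ?_) (two_uh P.grp.pre v)
      intro y hy
      rw [mem_filter] at hy ⊢
      exact ⟨hy.1, hy.2.2⟩
    have h4 : ∑ v ∈ Y \ Hs, 2 ≤ 2 * Y.card := by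
      rw [sum_const, smul_eq_mul, mul_comm]
      exact Nat.mul_le_mul_left _ (card_le_card sdiff_subset)
    exact_mod_cast le_trans h3 h4
  by_contra hcon
  push Not at hcon
  have h5 : (3 : ℝ) ≤ (Fy Y).card := by exact_mod_cast hcon
  have h6 : (0 : ℝ) < Y.card := by exact_mod_cast h0
  have h7 : (3 : ℝ) * (9 / 10) * Y.card ≤ (Fy Y).card * (1 - ε) * Y.card := by
    apply mul_le_mul_of_nonneg_right _ h6.le
    nlinarith
  linarith

/-- missing colours at all vertices outside the spots -/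
theorem exists_mu
    (P : PrepQ δ' π θ θ' ε2 ε x η G EH d Ys UH Hs c0 tu cc t E K0 C p a Z μ Fy Mt pn)
    (M : MidQ δ π s G EH d Ys UH Hs c0 tu cc t E F0 K0 C p a Z μ t' E') :
    ∃ μ' : V → Fin k, (∀ y ∈ UH, μ' y = μ y) ∧ ∀ y, ¬ InS Ys y → Mis G cc K0 μ' t' y := by
  have h0 : ∀ y, ∃ b : Fin k, (y ∈ UH → b = μ y) ∧ (y ∉ UH → ¬ InS Ys y → b ∈ K0 ∧ b ≠ cc y ∧
      ∀ w, G.Adj y w → t' y w ≠ b) := by
    intro y
    by_cases hy : y ∈ UH
    · exact ⟨μ y, fun _ => rfl, fun h => absurd hy h⟩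
    · have h1 : (insert (cc y) ((nb G y).image (t' y))).card < K0.card := by
        have e1 := card_insert_le (cc y) ((nb G y).image (t' y))
        have e2 : ((nb G y).image (t' y)).card ≤ (nb G y).card := card_image_le
        have e3 := P.grp.deg y
        have e4 := P.out.K0c
        omega
      obtain ⟨b, hb, hb'⟩ := exists_mem_notMem_of_card_lt_card h1
      rw [mem_insert, mem_image, not_or] at hb'
      refine ⟨b, fun h => absurd h hy, fun _ _ => ⟨hb, hb'.1, fun w hw he => hb'.2 ⟨w, ?_, he⟩⟩⟩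
      exact nb_of_adj hw
  choose μ' h1 h2 using h0
  refine ⟨μ', h1, fun y hy => ?_⟩
  by_cases hU : y ∈ UH
  · obtain ⟨h3, h4, h5⟩ := P.mis y hU hy
    refine ⟨?_, ?_, ?_⟩
    · rw [h1 y hU]
      exact h3
    · rw [h1 y hU]
      exact h4
    · intro w hw
      rw [mid_tq P M y w hw hy, h1 y hU]
      exact h5 w hw
  · exact h2 y hU hy

/-- `Bas` -/
theorem mid_basq {δG θG ηs : ℝ} {μ' : V → Fin k}
    (P : PrepQ δ' π θ θ' ε2 ε x η G EH d Ys UH Hs c0 tu cc t E K0 C p a Z μ Fy Mt pn)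
    (M : MidQ δ π s G EH d Ys UH Hs c0 tu cc t E F0 K0 C p a Z μ t' E')
    (hμ : ∀ y, ¬ InS Ys y → Mis G cc K0 μ' t' y)
    (hε : ε ≤ 1 / 10) (hθ : θ ≤ 1 / 10) (hη : 0 ≤ η) (hd : 1 ≤ d)
    (hδG : 2 * δ ≤ δG) (hθG : θ * d + 1 ≤ θG * d) (hηs : 4 * η ≤ ηs) (hηd : 4 ≤ ηs * d) :
    Bas δG θG ηs G EH d Ys (shs d Ys) UH UH c0 tu cc t' E' F0 K0 μ'
      (fun Y => (Fy Y).card) (fun Y => Fy Y ∪ (Y ∩ UH).image c0) := by
  have hdR : (1 : ℝ) ≤ d := by exact_mod_cast hd
  have hYc : ∀ Y ∈ Ys, (9 / 10 : ℝ) * d ≤ Y.card := by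
    intro Y hY
    have h1 := P.grp.low Y hY
    nlinarith
  have hYu : ∀ Y ∈ Ys, (Y.card : ℝ) ≤ (11 / 10 : ℝ) * d := by
    intro Y hY
    have h1 := P.grp.upp Y hY
    nlinarith
  have hY0 : ∀ Y ∈ Ys, 0 < Y.card := by
    intro Y hY
    have h1 := hYc Y hY
    have h2 : (0 : ℝ) < Y.card := by linarith
    exact_mod_cast h2
  exact
    { K0c := M.out.K0c
      deg := P.grp.deg
      pre := P.grp.pre
      upp := by
        intro Y hY
        have h1 := hYu Y hY
        have h2 : (Y.card : ℝ) ≤ ((2 * d : ℕ) : ℝ) := by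
          push_cast
          linarith
        exact_mod_cast h2
      low := by
        intro Y hY
        have h1 := hYc Y (shs_sub hY)
        have h2 : (d : ℝ) ≤ ((2 * Y.card : ℕ) : ℝ) := by
          push_cast
          linarith
        exact_mod_cast h2
      dis := P.grp.dis
      sh := fun Y hY => shs_sub hY
      UX := fun v hv _ => hv
      cor := mid_corq M
      F0u := fun v _ => M.F0u v
      Ec := by
        rintro v ⟨Y, hY, hv⟩
        have h1 := E_uppq P M hY hv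
        have h2 := P.grp.din Y hY v hv
        have h3 : (if v ∈ UH then (1 : ℝ) else 0) ≤ 1 := by split_ifs <;> norm_num
        linarith
      Es := by
        intro Y hY
        rw [slo_card']
        push_cast
        have h1 : ∑ v ∈ Y, ((E' v).card : ℝ) ≤
            ∑ v ∈ Y, (((d : ℝ) - (nb G v ∩ Y).card) + (if v ∈ UH then 1 else 0)) :=
          sum_le_sum fun v hv => E_uppq P M hY hv
        rw [sum_add_distrib] at h1
        have h2 := sum_uh (P.grp.uh2 Y hY) Y (Subset.refl _)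
        have h3 := P.grp.sum Y hY
        rw [wt] at h3
        have h4 := hYu Y hY
        have h5 : η * d * Y.card ≤ η * d * ((11 / 10 : ℝ) * d) :=
          mul_le_mul_of_nonneg_left h4 (by positivity)
        have h6 : 4 * η * (d * d) ≤ ηs * (d * d) := mul_le_mul_of_nonneg_right hηs (by positivity)
        have h7 : 4 * (d : ℝ) ≤ ηs * d * d := mul_le_mul_of_nonneg_right hηd (by positivity)
        have h8 : 0 ≤ η * (d * d) := by positivity
        nlinarith
      ld := by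
        intro Y hY b
        have h1 := M.out.ld Y hY b
        have h2 := M.out.ZY Y hY
        have h3 : Y.filter (fun v => b ∈ E' v) ⊆
            Y.filter (fun v => v ∉ Z ∧ b ∈ E' v) ∪ (Y ∩ Z) := by
          intro v hv
          rw [mem_filter] at hv
          rw [mem_union, mem_filter, mem_inter]
          by_cases hZ : v ∈ Z
          · exact Or.inr ⟨hv.1, hZ⟩
          · exact Or.inl ⟨hv.1, hZ, hv.2⟩
        have h4 := le_trans (card_le_card h3) (card_union_le _ _)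
        have h5 : ((Y.filter (fun v => b ∈ E' v)).card : ℝ) ≤
            ((Y.filter (fun v => v ∉ Z ∧ b ∈ E' v)).card : ℝ) + (Y ∩ Z).card := by
          exact_mod_cast h4
        have h6 : 2 * δ * d ≤ δG * d := mul_le_mul_of_nonneg_right hδG (by positivity)
        linarith
      mis := hμ
      ndd := by
        intro Y hY
        have h0 := hY0 Y (shs_sub hY)
        have h1 : ((Fy Y).card : ℝ) ≤ 2 := by exact_mod_cast fy_twoq P hε hY h0
        linarith
      Exc := by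
        intro Y hY
        have h1 := card_union_le (Fy Y) ((Y ∩ UH).image c0)
        have h2 : ((Y ∩ UH).image c0).card ≤ (Y ∩ UH).card := card_image_le
        have h3 := P.grp.uh2 Y (shs_sub hY)
        show (Fy Y ∪ (Y ∩ UH).image c0).card ≤ (Fy Y).card + 4
        omega }

/-- `QL` -/
theorem mid_ql {μ' : V → Fin k}
    (P : PrepQ δ' π θ θ' ε2 ε x η G EH d Ys UH Hs c0 tu cc t E K0 C p a Z μ Fy Mt pn)
    (M : MidQ δ π s G EH d Ys UH Hs c0 tu cc t E F0 K0 C p a Z μ t' E')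
    (hμ : ∀ y ∈ UH, μ' y = μ y) (hε : ε ≤ 1 / 10) (hθ : θ ≤ 1 / 10) (hd : 1 ≤ d) :
    QL ε ε2 θ' G d Ys (shs d Ys) UH (Lts Ys Hs) E' μ' (fun Y => (Fy Y).card) where
  el := by
    rintro v ⟨Y, hY, hv⟩ hvL hvU
    have hY' := shs_sub hY
    have h1 := E_uppq P M hY' hv
    rw [if_neg hvU] at h1
    have h2 : v ∉ Hs := by
      unfold Lts at hvL
      exact (mem_filter.1 hvL).2.2
    have h3 := P.grp.lig Y hY' v hv h2
    linarith
  hub := by
    intro y hyU hyS
    refine le_trans ?_ (P.hub y hyU hyS)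
    have h1 : (nb G y).filter (fun v => InS Ys v ∧ v ∉ UH ∧ μ' y ∈ E' v) ⊆
        (nb G y).filter (fun v => InS Ys v ∧ v ∉ UH ∧ μ y ∈ E v) := by
      intro v hv
      obtain ⟨h1, h2, h3, h4⟩ := mem_filter.1 hv
      rw [hμ y hyU] at h4
      refine mem_filter.2 ⟨h1, h2, h3, ?_⟩
      by_contra h5
      exact M.mu v y h2 h3 hyU hyS (adj_of_nb h1).symm h5 h4
    exact_mod_cast card_le_card h1
  hst := by
    intro Y hY
    refine le_trans ?_ (P.hst Y hY)
    rw [inter_Lts Hs (shs_sub hY)]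
    have h1 : ∑ v ∈ (Y \ Hs) \ UH, ((nb G v).filter (fun y => y ∈ UH ∧ ¬ InS Ys y ∧
        μ' y ∈ E' v)).card ≤ ∑ v ∈ (Y \ Hs) \ UH, ((nb G v).filter (fun y => y ∈ UH ∧
        ¬ InS Ys y ∧ μ y ∈ E v)).card := by
      refine sum_le_sum fun v hv => card_le_card ?_
      obtain ⟨hv1, hvU⟩ := mem_sdiff.1 hv
      have hvY := (mem_sdiff.1 hv1).1
      intro y hy
      obtain ⟨h1, h2, h3, h4⟩ := mem_filter.1 hy
      rw [hμ y h2] at h4
      refine mem_filter.2 ⟨h1, h2, h3, ?_⟩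
      by_contra h5
      exact M.mu v y ⟨Y, shs_sub hY, hvY⟩ hvU h2 h3 (adj_of_nb h1) h5 h4
    exact_mod_cast h1
  two := by
    intro Y hY
    refine fy_twoq P hε hY ?_
    have h1 := P.grp.low Y (shs_sub hY)
    have h2 : (1 : ℝ) ≤ d := by exact_mod_cast hd
    have h3 : (0 : ℝ) < Y.card := by nlinarith
    exact_mod_cast h3
  uh := by
    intro Y hY
    rw [inter_Lts Hs (shs_sub hY)]
    exact P.uh Y hY
  uh2 := fun Y hY => P.grp.uh2 Y (shs_sub hY)

end facts

theorem stmt_SITQ : Stmt_SITQ.{u} := by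
  refine ⟨1 / 5, by norm_num, fun δ1 hδ1 => ⟨min (δ1 / 32) (1 / 2), δ1 / 16, 1 / 10,
    by positivity, by positivity, by norm_num, le_rfl, ?_⟩⟩
  intro δs θs hδs hθs
  obtain ⟨θG, hθG0, hθG1, hθG2⟩ : ∃ θG : ℝ, 0 < θG ∧ θG ≤ θs ∧ θG ≤ 1 / 100 :=
    ⟨min θs (1 / 100), lt_min hθs (by norm_num), min_le_left _ _, min_le_right _ _⟩
  obtain ⟨δG, hδG0, hδG1, hδG2, hδG3⟩ : ∃ δG : ℝ, 0 < δG ∧ δG ≤ δs ∧ δG ≤ 1 / 1000 ∧
      δG ≤ δ1 / 64 :=
    ⟨min δs (min (1 / 1000) (δ1 / 64)), lt_min hδs (lt_min (by norm_num) (by positivity)),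
      min_le_left _ _, le_trans (min_le_right _ _) (min_le_left _ _),
      le_trans (min_le_right _ _) (min_le_right _ _)⟩
  refine ⟨θG / 2, by positivity, δG / 2, min (δ1 / 64) (δ1 * δ1 / 8), by positivity,
    by positivity, ?_⟩
  intro ηs hηs
  obtain ⟨d2, hd2⟩ := lin_big 1 (θG / 2) (by positivity)
  obtain ⟨d3, hd3⟩ := lin_big 4 ηs hηs
  obtain ⟨d4, hd4⟩ := lin_big 32 δ1 hδ1
  refine ⟨ηs / 4, d2 + d3 + d4 + 200, by positivity, ?_⟩
  intro V _ k δ' π θ' x s G EH d Ys UH Hs c0 tu cc t E K0 C p a Z μ Fy Mt pn F0 t' E' hd hθ' P M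
  have hdR : (200 : ℝ) ≤ d := by
    have h1 : 200 ≤ d := by omega
    exact_mod_cast h1
  have e2 := hd2 d (by omega)
  have e3 := hd3 d (by omega)
  have e4 := hd4 d (by omega)
  obtain ⟨μ', hμ1, hμ2⟩ := exists_mu P M
  have hB := mid_basq (δG := δG) (θG := θG) (ηs := ηs) P M hμ2 (by norm_num) (by linarith)
    (by positivity) (by omega) (by linarith) (by linarith) (by linarith) e3
  -- `θ'` may be replaced by a nonnegative number
  have hQ0 := mid_ql P M hμ1 (by norm_num) (by linarith) (by omega)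
  have hQ : QL (1 / 10) (δ1 / 16) (min (δ1 / 64) (δ1 * δ1 / 8)) G d Ys (shs d Ys) UH (Lts Ys Hs)
      E' μ' (fun Y => (Fy Y).card) :=
    { el := fun v h1 h2 h3 => le_trans (hQ0.el v h1 h2 h3)
        (mul_le_mul_of_nonneg_right hθ' (by linarith))
      hub := hQ0.hub
      hst := hQ0.hst
      two := hQ0.two
      uh := hQ0.uh
      uh2 := hQ0.uh2 }
  obtain ⟨nL, nD, Pm, Hb, hS, hn⟩ := geoq hB hQ hδ1 hθG2 (by norm_num) le_rfl hδG0 hδG2 hδG3
    (by positivity) (min_le_left _ _) (min_le_right _ _) le_rfl e4 (by omega)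
  refine ⟨μ', nL, nD, Pm, Hb, ?_, hn⟩
  have hθ2 : θG * d ≤ θs * d := mul_le_mul_of_nonneg_right hθG1 (by linarith)
  have hδ2 : δG * d ≤ δs * d := mul_le_mul_of_nonneg_right hδG1 (by linarith)
  exact
    { K0c := hS.K0c
      deg := hS.deg
      EG := hS.EG
      upp := hS.upp
      low := hS.low
      dis := hS.dis
      sh := hS.sh
      UX := hS.UX
      cor := hS.cor
      Ec := fun v hv => le_trans (hS.Ec v hv) hθ2
      Es := hS.Es
      ld := fun Y hY b => le_trans (hS.ld Y hY b) hδ2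
      mis := hS.mis
      pm := hS.pm
      ndd := hS.ndd
      Exc := hS.Exc
      us := hS.us
      Hc := hS.Hc
      Hd := hS.Hd
      Hy := hS.Hy }

end Pool.Agent.Work.MP_db9399_xq.helper1
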